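import Pool.Agent.ASO.Stmts3

/-!
# ISO (squad ASO): an integral function on a cyclic group of prime order with `|m^(j)| = 1` for
`j ≠ 0`
-/

open scoped BigOperators ComplexConjugate

noncomputable section

namespace Pool.Agent.PP.SO.H81

theorem parseval (ℓ : ℕ) (hℓ : 0 < ℓ) (ζ : ℂ) (hζ : IsPrimitiveRoot ζ ℓ) (m : Fin ℓ → ℤ) :
    ∑ j ∈ Finset.range ℓ, Complex.normSq (∑ k : Fin ℓ, (m k : ℂ) * ζ ^ ((k : ℕ) * j)) =
      ℓ * ∑ k, (m k : ℝ) ^ 2 := by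
  have hn : ‖ζ‖ = 1 := Complex.norm_eq_one_of_pow_eq_one hζ.pow_eq_one hℓ.ne'
  have hz0 : ζ ≠ 0 := hζ.ne_zero hℓ.ne'
  have hconj : conj ζ = ζ⁻¹ := (Complex.inv_eq_conj hn).symm
  have hgeo : ∀ k' k : Fin ℓ, ∑ j ∈ Finset.range ℓ, ((ζ⁻¹) ^ (k' : ℕ) * ζ ^ (k : ℕ)) ^ j =
      if k' = k then (ℓ : ℂ) else 0 := by
    intro k' k
    split_ifs with h
    · subst h
      have h1 : (ζ⁻¹) ^ (k' : ℕ) * ζ ^ (k' : ℕ) = 1 := by
        rw [← mul_pow, inv_mul_cancel₀ hz0, one_pow]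
      rw [h1]
      simp
    · set w := (ζ⁻¹) ^ (k' : ℕ) * ζ ^ (k : ℕ) with hw
      have hw1 : w ≠ 1 := by
        intro h1
        apply h
        have h2 : ζ ^ (k : ℕ) = ζ ^ (k' : ℕ) := by
          rw [hw, inv_pow] at h1
          have h3 := pow_ne_zero (k' : ℕ) hz0
          field_simp at h1
          exact h1
        exact Fin.ext (hζ.pow_inj k.2 k'.2 h2).symm
      have hwl : w ^ ℓ = 1 := by
        rw [hw, mul_pow, ← pow_mul, ← pow_mul, mul_comm (k' : ℕ), mul_comm (k : ℕ), pow_mul,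
          pow_mul, inv_pow, hζ.pow_eq_one]
        simp
      have h2 := geom_sum_mul w ℓ
      rw [hwl, sub_self] at h2
      rcases mul_eq_zero.1 h2 with h3 | h3
      · exact h3
      · exact absurd (sub_eq_zero.1 h3) hw1
  have hC : ((∑ j ∈ Finset.range ℓ, Complex.normSq
      (∑ k : Fin ℓ, (m k : ℂ) * ζ ^ ((k : ℕ) * j)) : ℝ) : ℂ) = ((ℓ * ∑ k, (m k : ℝ) ^ 2 : ℝ) : ℂ) := by
    rw [Complex.ofReal_sum]
    have h1 : ∀ j ∈ Finset.range ℓ, ((Complex.normSq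
        (∑ k : Fin ℓ, (m k : ℂ) * ζ ^ ((k : ℕ) * j)) : ℝ) : ℂ) =
        ∑ k' : Fin ℓ, ∑ k : Fin ℓ, (m k' : ℂ) * m k * ((ζ⁻¹) ^ (k' : ℕ) * ζ ^ (k : ℕ)) ^ j := by
      intro j _
      rw [Complex.normSq_eq_conj_mul_self, map_sum, Finset.sum_mul_sum]
      apply Finset.sum_congr rfl
      intro k' _
      apply Finset.sum_congr rfl
      intro k _
      rw [map_mul, map_intCast, map_pow, hconj, mul_pow, ← pow_mul, ← pow_mul]
      ring
    rw [Finset.sum_congr rfl h1, Finset.sum_comm]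
    have h2 : ∀ k' : Fin ℓ, ∑ j ∈ Finset.range ℓ, ∑ k : Fin ℓ,
        (m k' : ℂ) * m k * ((ζ⁻¹) ^ (k' : ℕ) * ζ ^ (k : ℕ)) ^ j = ℓ * (m k' : ℂ) ^ 2 := by
      intro k'
      rw [Finset.sum_comm]
      have h3 : ∀ k : Fin ℓ, ∑ j ∈ Finset.range ℓ,
          (m k' : ℂ) * m k * ((ζ⁻¹) ^ (k' : ℕ) * ζ ^ (k : ℕ)) ^ j =
          if k' = k then (ℓ : ℂ) * (m k' * m k) else 0 := by
        intro k
        rw [← Finset.mul_sum, hgeo]
        split_ifs
        · ring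
        · ring
      rw [Finset.sum_congr rfl (fun k _ => h3 k), Finset.sum_ite_eq]
      simp only [Finset.mem_univ, if_true]
      ring
    rw [Finset.sum_congr rfl (fun k' _ => h2 k'), ← Finset.mul_sum]
    push_cast
    rfl
  exact_mod_cast hC

theorem iso : IsoStmt := by
  intro ℓ _ ζ hζ m hm
  have hp : ℓ.Prime := Fact.out
  have hpar := parseval ℓ hp.pos ζ hζ m
  have hsplit : ∑ j ∈ Finset.range ℓ, Complex.normSq
      (∑ k : Fin ℓ, (m k : ℂ) * ζ ^ ((k : ℕ) * j)) =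
      ((∑ k, m k : ℤ) : ℝ) ^ 2 + ((ℓ : ℝ) - 1) := by
    obtain ⟨n, rfl⟩ : ∃ n, ℓ = n + 1 := ⟨ℓ - 1, (Nat.succ_pred_eq_of_pos hp.pos).symm⟩
    rw [Finset.sum_range_succ']
    have h1 : ∀ j ∈ Finset.range n, Complex.normSq
        (∑ k : Fin (n + 1), (m k : ℂ) * ζ ^ ((k : ℕ) * (j + 1))) = 1 := by
      intro j hj
      apply hm
      intro hd
      have := Nat.le_of_dvd (by omega) hd
      have := Finset.mem_range.1 hj
      omega
    rw [Finset.sum_congr rfl h1]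
    have h2 : ∑ k : Fin (n + 1), (m k : ℂ) * ζ ^ ((k : ℕ) * 0) = (((∑ k, m k : ℤ) : ℝ) : ℂ) := by
      push_cast
      simp
    rw [h2, Complex.normSq_ofReal]
    simp
    ring
  rw [hsplit] at hpar
  set S : ℤ := ∑ k, m k with hS
  have hint : S ^ 2 + ((ℓ : ℤ) - 1) = ℓ * ∑ k, m k ^ 2 := by exact_mod_cast hpar
  have hdvd : (ℓ : ℤ) ∣ (S - 1) * (S + 1) := by
    refine ⟨∑ k, m k ^ 2 - 1, ?_⟩
    linear_combination hint
  have hprime : Prime (ℓ : ℤ) := Nat.prime_iff_prime_int.1 hp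
  obtain ⟨ε, c, hε, hSc⟩ : ∃ ε c : ℤ, (ε = 1 ∨ ε = -1) ∧ S = ε + ℓ * c := by
    rcases hprime.dvd_or_dvd hdvd with ⟨c, hc⟩ | ⟨c, hc⟩
    · exact ⟨1, c, Or.inl rfl, by linarith⟩
    · exact ⟨-1, c, Or.inr rfl, by linarith⟩
  have hε2 : ε ^ 2 = 1 := by rcases hε with rfl | rfl <;> norm_num
  -- the shifted function
  have hsum1 : ∑ k, (m k - c) = ε := by
    rw [Finset.sum_sub_distrib, Finset.sum_const, Finset.card_univ, Fintype.card_fin,
      nsmul_eq_mul, ← hS, hSc]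
    ring
  have hsum2 : ∑ k, (m k - c) ^ 2 = 1 := by
    have h1 : ∑ k, (m k - c) ^ 2 = ∑ k, m k ^ 2 - 2 * c * S + ℓ * c ^ 2 := by
      have h2 : ∀ k, (m k - c) ^ 2 = m k ^ 2 - 2 * c * m k + c ^ 2 := fun k => by ring
      rw [Finset.sum_congr rfl (fun k _ => h2 k), Finset.sum_add_distrib,
        Finset.sum_sub_distrib, ← Finset.mul_sum, Finset.sum_const, Finset.card_univ,
        Fintype.card_fin, nsmul_eq_mul]
    have hl0 : (ℓ : ℤ) ≠ 0 := by exact_mod_cast hp.ne_zero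
    apply mul_left_cancel₀ hl0
    rw [h1]
    have h3 : (ℓ : ℤ) * (∑ k, m k ^ 2 - 2 * c * S + ℓ * c ^ 2) =
        S ^ 2 + ((ℓ : ℤ) - 1) - 2 * ℓ * c * S + ℓ ^ 2 * c ^ 2 := by
      rw [hint]
      ring
    rw [h3, hSc]
    linear_combination hε2
  have hex : ∃ j₀, m j₀ - c ≠ 0 := by
    by_contra h
    push Not at h
    rw [Finset.sum_congr rfl (fun k _ => by rw [h k])] at hsum2
    simp at hsum2
  obtain ⟨j₀, hj₀⟩ := hex
  have hoth : ∀ k, k ≠ j₀ → m k - c = 0 := by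
    intro k hk
    by_contra hne
    have h1 : (m j₀ - c) ^ 2 + (m k - c) ^ 2 ≤ ∑ k, (m k - c) ^ 2 := by
      rw [← Finset.add_sum_erase _ _ (Finset.mem_univ j₀)]
      have h2 : (m k - c) ^ 2 ≤ ∑ x ∈ Finset.univ.erase j₀, (m x - c) ^ 2 :=
        Finset.single_le_sum (f := fun x => (m x - c) ^ 2) (fun x _ => sq_nonneg _)
          (Finset.mem_erase.2 ⟨hk, Finset.mem_univ k⟩)
      linarith
    have h3 : 0 < (m j₀ - c) ^ 2 := by positivity
    have h4 : 0 < (m k - c) ^ 2 := by positivity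
    rw [hsum2] at h1
    omega
  have hval : m j₀ - c = ε := by
    rw [← hsum1, ← Finset.add_sum_erase _ _ (Finset.mem_univ j₀)]
    rw [Finset.sum_eq_zero (fun x hx => hoth x (Finset.mem_erase.1 hx).1), add_zero]
  refine ⟨j₀, ε, c, hε, ?_⟩
  intro k
  split_ifs with h
  · subst h
    linarith
  · linarith [hoth k h]

end Pool.Agent.PP.SO.H81
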